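import Pool.Agent.H5St.Dens

/-!
# The sums of the powers of the three-valued density
-/

set_option autoImplicit false

open Finset Classical

namespace Pool.Agent.H10Star

open Pool.Agent.PlunTwo Pool.Agent.PlunRow Pool.Agent.H5St

theorem cutw_mono (A : Set (ℕ × ℕ)) {c c' : ℝ} (h : c ≤ c') (r x : ℕ) :
    cutw A c r x ≤ cutw A c' r x := by
  have hab : (row r A x : ℝ) ≤ row r A (x + 1) := by
    exact_mod_cast row_mono r A (Nat.le_succ x)
  unfold cutw
  generalize (row r A x : ℝ) = a at hab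
  generalize (row r A (x + 1) : ℝ) = b at hab
  simp only [min_def]
  split_ifs <;> linarith

/-- Concavity of the power with three points and total weight at most one. -/
theorem three_rpow {p1 p2 p3 E1 E2 E3 th : ℝ} (h1 : 0 ≤ p1) (h2 : 0 ≤ p2) (h3 : 0 ≤ p3)
    (hs : p1 + p2 + p3 ≤ 1) (hE1 : 0 ≤ E1) (hE2 : 0 ≤ E2) (hE3 : 0 ≤ E3) (hth0 : 0 ≤ th)
    (hth1 : th ≤ 1) :
    E1 ^ th * p1 + E2 ^ th * p2 + E3 ^ th * p3 ≤ (E1 * p1 + E2 * p2 + E3 * p3) ^ th := by
  have hc := (Real.concaveOn_rpow hth0 hth1).le_map_sum (t := (univ : Finset (Fin 4)))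
    (w := ![p1, p2, p3, 1 - (p1 + p2 + p3)]) (p := ![E1, E2, E3, 0])
    (fun i _ => by
      fin_cases i
      · exact h1
      · exact h2
      · exact h3
      · show 0 ≤ 1 - (p1 + p2 + p3)
        linarith)
    (by
      rw [Fin.sum_univ_four]
      show p1 + p2 + p3 + (1 - (p1 + p2 + p3)) = 1
      ring)
    (fun i _ => by
      fin_cases i
      · exact hE1
      · exact hE2
      · exact hE3
      · show (0 : ℝ) ≤ 0
        exact le_rfl)
  rw [Fin.sum_univ_four, Fin.sum_univ_four] at hc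
  have hc' : p1 * E1 ^ th + p2 * E2 ^ th + p3 * E3 ^ th + (1 - (p1 + p2 + p3)) * (0 : ℝ) ^ th ≤
      (p1 * E1 + p2 * E2 + p3 * E3 + (1 - (p1 + p2 + p3)) * 0) ^ th := hc
  have h0 : 0 ≤ (1 - (p1 + p2 + p3)) * (0 : ℝ) ^ th :=
    mul_nonneg (by linarith) (Real.rpow_nonneg le_rfl _)
  have e : p1 * E1 + p2 * E2 + p3 * E3 + (1 - (p1 + p2 + p3)) * 0 =
      E1 * p1 + E2 * p2 + E3 * p3 := by ring
  rw [e] at hc'
  linarith

theorem mem_box_iff' {q : ℕ} {p : ℕ × ℕ} : p ∈ PlunTwo.box q 1 ↔ p.1 < q + 1 ∧ p.2 < 2 := by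
  rw [PlunTwo.box, mem_product, mem_range, mem_range]

theorem sum_dd_rpow {q : ℕ} (A : Set (ℕ × ℕ)) {e1 e2 e3 e4 c1 c2 c3 b th : ℝ}
    (h1 : 0 ≤ e1) (h2 : 0 ≤ e2) (h3 : 0 ≤ e3) (h4 : 0 ≤ e4) (hc1 : 0 ≤ c1) (hc12 : c1 ≤ c2)
    (hc23 : c2 ≤ c3) (hr3 : c3 ≤ row 0 A (q + 1)) (hb : 0 ≤ b) (hrb : b ≤ row 1 A (q + 1))
    (hth0 : 0 ≤ th) (hth1 : th ≤ 1) :
    (e1 + e2 + e3) ^ th * c1 + (e2 + e3) ^ th * (c2 - c1) + e3 ^ th * (c3 - c2) ≤
      ∑ x ∈ (src q A).filter (fun x => ¬ x.2 = 1), dd A e1 e2 e3 e4 c1 c2 c3 b x ^ th ∧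
    e4 ^ th * b ≤
      ∑ x ∈ (src q A).filter (fun x => x.2 = 1), dd A e1 e2 e3 e4 c1 c2 c3 b x ^ th := by
  constructor
  · have s1 : c1 = ∑ x ∈ range (q + 1), cutw A c1 0 x := by
      rw [sum_cutw A hc1, min_eq_right (by linarith)]
    have s2 : c2 = ∑ x ∈ range (q + 1), cutw A c2 0 x := by
      rw [sum_cutw A (by linarith), min_eq_right (by linarith)]
    have s3 : c3 = ∑ x ∈ range (q + 1), cutw A c3 0 x := by
      rw [sum_cutw A (by linarith), min_eq_right hr3]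
    have hL : (e1 + e2 + e3) ^ th * c1 + (e2 + e3) ^ th * (c2 - c1) + e3 ^ th * (c3 - c2) =
        ∑ x ∈ range (q + 1), ((e1 + e2 + e3) ^ th * cutw A c1 0 x +
          (e2 + e3) ^ th * (cutw A c2 0 x - cutw A c1 0 x) +
          e3 ^ th * (cutw A c3 0 x - cutw A c2 0 x)) := by
      rw [sum_add_distrib, sum_add_distrib, ← mul_sum, ← mul_sum, ← mul_sum, sum_sub_distrib,
        sum_sub_distrib, ← s1, ← s2, ← s3]
    rw [hL]
    have hf : ∑ x ∈ (range (q + 1)).filter (fun x => (x, 0) ∈ A),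
          ((e1 + e2 + e3) ^ th * cutw A c1 0 x +
          (e2 + e3) ^ th * (cutw A c2 0 x - cutw A c1 0 x) +
          e3 ^ th * (cutw A c3 0 x - cutw A c2 0 x)) =
        ∑ x ∈ range (q + 1), ((e1 + e2 + e3) ^ th * cutw A c1 0 x +
          (e2 + e3) ^ th * (cutw A c2 0 x - cutw A c1 0 x) +
          e3 ^ th * (cutw A c3 0 x - cutw A c2 0 x)) := by
      refine sum_filter_of_ne fun x _ hne => ?_
      by_contra hcon
      refine hne ?_
      rw [cutw_eq_zero hcon, cutw_eq_zero hcon, cutw_eq_zero hcon]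
      ring
    rw [← hf]
    have hle : ∑ x ∈ (range (q + 1)).filter (fun x => (x, 0) ∈ A),
          ((e1 + e2 + e3) ^ th * cutw A c1 0 x +
          (e2 + e3) ^ th * (cutw A c2 0 x - cutw A c1 0 x) +
          e3 ^ th * (cutw A c3 0 x - cutw A c2 0 x)) ≤
        ∑ x ∈ (range (q + 1)).filter (fun x => (x, 0) ∈ A),
          dd A e1 e2 e3 e4 c1 c2 c3 b (x, 0) ^ th := by
      refine sum_le_sum fun x _ => ?_
      unfold dd
      rw [if_pos rfl]
      have m1 := cutw_nonneg A c1 0 x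
      have m2 := cutw_mono A hc12 0 x
      have m3 := cutw_mono A hc23 0 x
      have m4 := cutw_le_one A c3 0 x
      refine (three_rpow m1 (by linarith) (by linarith) (by linarith) (by linarith)
        (by linarith) h3 hth0 hth1).trans (le_of_eq ?_)
      congr 1
      show (e1 + e2 + e3) * cutw A c1 0 x + (e2 + e3) * (cutw A c2 0 x - cutw A c1 0 x) +
        e3 * (cutw A c3 0 x - cutw A c2 0 x) =
        e1 * cutw A c1 0 x + e2 * cutw A c2 0 x + e3 * cutw A c3 0 x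
      ring
    refine hle.trans (le_of_eq ?_)
    refine sum_bij (fun x _ => (x, 0)) (fun x hx => ?_) (fun x _ y _ h => (Prod.ext_iff.1 h).1)
      (fun p hp => ?_) fun x _ => rfl
    · rw [mem_filter, mem_range] at hx
      rw [mem_filter, src, mem_filter, mem_box_iff']
      exact ⟨⟨⟨hx.1, by omega⟩, hx.2⟩, by norm_num⟩
    · obtain ⟨x, r⟩ := p
      rw [mem_filter, src, mem_filter, mem_box_iff'] at hp
      have hr : r = 0 := by
        have := hp.1.1.2
        have := hp.2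
        simp only at this
        omega
      subst hr
      exact ⟨x, mem_filter.2 ⟨mem_range.2 hp.1.1.1, hp.1.2⟩, rfl⟩
  · have s4 : b = ∑ x ∈ range (q + 1), cutw A b 1 x := by
      rw [sum_cutw A hb, min_eq_right hrb]
    have hL : e4 ^ th * b = ∑ x ∈ range (q + 1), e4 ^ th * cutw A b 1 x := by
      rw [← mul_sum, ← s4]
    rw [hL]
    have hf : ∑ x ∈ (range (q + 1)).filter (fun x => (x, 1) ∈ A), e4 ^ th * cutw A b 1 x =
        ∑ x ∈ range (q + 1), e4 ^ th * cutw A b 1 x := by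
      refine sum_filter_of_ne fun x _ hne => ?_
      by_contra hcon
      exact hne (by rw [cutw_eq_zero hcon, mul_zero])
    rw [← hf]
    have hle : ∑ x ∈ (range (q + 1)).filter (fun x => (x, 1) ∈ A), e4 ^ th * cutw A b 1 x ≤
        ∑ x ∈ (range (q + 1)).filter (fun x => (x, 1) ∈ A),
          dd A e1 e2 e3 e4 c1 c2 c3 b (x, 1) ^ th := by
      refine sum_le_sum fun x _ => ?_
      unfold dd
      rw [if_neg (by norm_num)]
      have m1 := cutw_nonneg A b 1 x
      have m4 := cutw_le_one A b 1 x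
      have := three_rpow m1 le_rfl le_rfl (by linarith) h4 le_rfl le_rfl hth0 hth1
        (p2 := 0) (p3 := 0) (E2 := 0) (E3 := 0)
      simpa using this
    refine hle.trans (le_of_eq ?_)
    refine sum_bij (fun x _ => (x, 1)) (fun x hx => ?_) (fun x _ y _ h => (Prod.ext_iff.1 h).1)
      (fun p hp => ?_) fun x _ => rfl
    · rw [mem_filter, mem_range] at hx
      rw [mem_filter, src, mem_filter, mem_box_iff']
      exact ⟨⟨⟨hx.1, by omega⟩, hx.2⟩, rfl⟩
    · obtain ⟨x, r⟩ := p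
      rw [mem_filter, src, mem_filter, mem_box_iff'] at hp
      have hr : r = 1 := hp.2
      subst hr
      exact ⟨x, mem_filter.2 ⟨mem_range.2 hp.1.1.1, hp.1.2⟩, rfl⟩

end Pool.Agent.H10Star
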