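import Mathlib

/-!
The inequality (STAR) for `MP_a106e5_co` (step (ii), helper5's certificate with three slopes).
-/

set_option autoImplicit false

namespace Pool.Agent.H10Star

/-- Weighted harmonic mean below weighted geometric mean. -/
theorem harm_le_rpow {x th : ℝ} (hx : 0 < x) (h0 : 0 ≤ th) (h1 : th ≤ 1) :
    x / (1 + (1 - th) * (x - 1)) ≤ x ^ th := by
  have hden : 0 < 1 + (1 - th) * (x - 1) := by
    rcases h0.eq_or_lt with h | h
    · rw [← h]; linarith
    · have : 0 ≤ (1 - th) * x := mul_nonneg (by linarith) hx.le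
      nlinarith
  have hB : x ^ (1 - th) ≤ 1 + (1 - th) * (x - 1) := by
    have := rpow_one_add_le_one_add_mul_self (s := x - 1) (by linarith) (p := 1 - th)
      (by linarith) (by linarith)
    simpa using this
  rw [div_le_iff₀ hden]
  have hsplit : x ^ th * x ^ (1 - th) = x := by
    rw [← Real.rpow_add hx]; simp
  calc x = x ^ th * x ^ (1 - th) := hsplit.symm
    _ ≤ x ^ th * (1 + (1 - th) * (x - 1)) :=
        mul_le_mul_of_nonneg_left hB (Real.rpow_nonneg hx.le _)

/-- The rational inequality behind (STAR). -/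
theorem star_rat {th s A B : ℝ} (h0 : 1 / 2 ≤ th) (h1 : th ≤ 1) (hs0 : 0 ≤ s) (hs1 : s ≤ 1)
    (hA : A = th + s + th * (1 - s) / 2)
    (hB : B = th + (1 + s) / 2 + (1 - th) * (2 - th) * s) :
    1 + s ≤ 2 * s * ((s + th) / A) + (1 - s) * ((th + (1 + s) / 2 + (2 - th) * s) / B) := by
  have hA0 : 0 < A := by
    have : 0 ≤ th * (1 - s) := mul_nonneg (by linarith) (by linarith)
    rw [hA]; linarith
  have hB0 : 0 < B := by
    have : 0 ≤ (1 - th) * (2 - th) * s :=
      mul_nonneg (mul_nonneg (by linarith) (by linarith)) hs0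
    rw [hB]; linarith
  have hAB : B ≤ (2 - th) * A := by
    have : 0 ≤ (1 - th) * (th - (1 - th) * (1 + s) / 2) := by
      apply mul_nonneg (by linarith)
      nlinarith
    rw [hA, hB]; nlinarith
  have e1 : (s + th) / A = 1 - th * (1 - s) / 2 / A := by
    rw [eq_sub_iff_add_eq, ← add_div, div_eq_one_iff_eq hA0.ne', hA]; ring
  have e2 : (th + (1 + s) / 2 + (2 - th) * s) / B = 1 + th * (2 - th) * s / B := by
    rw [div_eq_iff hB0.ne']
    have : th * (2 - th) * s / B * B = th * (2 - th) * s := div_mul_cancel₀ _ hB0.ne'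
    linear_combination (-1 : ℝ) * this - hB
  rw [e1, e2]
  have h2 : th * s * (1 - s) / A ≤ (2 - th) * (th * s * (1 - s)) / B := by
    rw [div_le_div_iff₀ hA0 hB0]
    have hc : 0 ≤ th * s * (1 - s) := mul_nonneg (mul_nonneg (by linarith) hs0) (by linarith)
    nlinarith [mul_le_mul_of_nonneg_left hAB hc]
  have h3 : th * (1 - s) / 2 / A * (2 * s) = th * s * (1 - s) / A := by ring
  have h4 : th * (2 - th) * s / B * (1 - s) = (2 - th) * (th * s * (1 - s)) / B := by ring
  linarith

/-- (STAR). -/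
theorem star {th s : ℝ} (h0 : 1 / 2 ≤ th) (h1 : th ≤ 1) (hs0 : 0 ≤ s) (hs1 : s ≤ 1) :
    1 + s ≤ 2 * s * ((s + th) / (th + (1 + s) / 2)) ^ th +
      (1 - s) * (1 + (2 - th) * s / (th + (1 + s) / 2)) ^ th := by
  have hQ0 : 0 < th + (1 + s) / 2 := by linarith
  have ha0 : 0 < (s + th) / (th + (1 + s) / 2) := div_pos (by linarith) hQ0
  have hb0 : 0 < 1 + (2 - th) * s / (th + (1 + s) / 2) := by
    have : 0 ≤ (2 - th) * s / (th + (1 + s) / 2) :=
      div_nonneg (mul_nonneg (by linarith) hs0) hQ0.le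
    linarith
  have ha := harm_le_rpow ha0 (by linarith : (0:ℝ) ≤ th) h1
  have hb := harm_le_rpow hb0 (by linarith : (0:ℝ) ≤ th) h1
  have hae : (s + th) / (th + (1 + s) / 2) / (1 + (1 - th) * ((s + th) / (th + (1 + s) / 2) - 1)) =
      (s + th) / (th + s + th * (1 - s) / 2) := by
    have e1 : 1 + (1 - th) * ((s + th) / (th + (1 + s) / 2) - 1) =
        (th + s + th * (1 - s) / 2) / (th + (1 + s) / 2) := by
      rw [eq_div_iff hQ0.ne']
      have : (s + th) / (th + (1 + s) / 2) * (th + (1 + s) / 2) = s + th :=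
        div_mul_cancel₀ _ hQ0.ne'
      linear_combination (1 - th) * this
    rw [e1, div_div_div_cancel_right₀ hQ0.ne']
  have hbe : (1 + (2 - th) * s / (th + (1 + s) / 2)) /
      (1 + (1 - th) * (1 + (2 - th) * s / (th + (1 + s) / 2) - 1)) =
      (th + (1 + s) / 2 + (2 - th) * s) / (th + (1 + s) / 2 + (1 - th) * (2 - th) * s) := by
    have e1 : 1 + (1 - th) * (1 + (2 - th) * s / (th + (1 + s) / 2) - 1) =
        (th + (1 + s) / 2 + (1 - th) * (2 - th) * s) / (th + (1 + s) / 2) := by
      rw [eq_div_iff hQ0.ne']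
      have : (2 - th) * s / (th + (1 + s) / 2) * (th + (1 + s) / 2) = (2 - th) * s :=
        div_mul_cancel₀ _ hQ0.ne'
      linear_combination (1 - th) * this
    have e2 : 1 + (2 - th) * s / (th + (1 + s) / 2) =
        (th + (1 + s) / 2 + (2 - th) * s) / (th + (1 + s) / 2) := by
      rw [eq_div_iff hQ0.ne']
      have : (2 - th) * s / (th + (1 + s) / 2) * (th + (1 + s) / 2) = (2 - th) * s :=
        div_mul_cancel₀ _ hQ0.ne'
      linear_combination this
    rw [e1, e2, div_div_div_cancel_right₀ hQ0.ne']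
  rw [hae] at ha
  rw [hbe] at hb
  calc 1 + s ≤ _ := star_rat h0 h1 hs0 hs1 rfl rfl
    _ ≤ _ := by
      apply add_le_add
      · exact mul_le_mul_of_nonneg_left ha (by linarith)
      · exact mul_le_mul_of_nonneg_left hb (by linarith)

end Pool.Agent.H10Star
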